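import Pool.Agent.V1138.CM.Law

/-!
# An explosive Crump-Mode-Jagers process with independent waiting times and without star

`birth x u` is the birth time of the individual `u` (a finite sequence of natural numbers, the root is
`[]`, the child number `i` of `u` is `i :: u`, `i = 0, 1, 2, …`), where
`x (u, j)` is the waiting time between the births of the children number `j - 1` and `j` of `u`;
`explosionTime x` is the infimum of the times `t ≥ 0` with infinitely many individuals born up to
time `t`, and `treeAtExplosion x` is the set of the individuals born before the explosion time. Under
`cmjLaw ν` all the waiting times `x (u, j)` are independent, and `x (u, j)` has the law `ν j`.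

The example: `x (u, j) = 2 ^ (-j) v` with `v` uniform on `(0, 1]`, except that for the indices
`j = 2 ^ ((n + 3) ^ 2)`, `n = 0, 1, …`, the waiting time is `1` if `v > 1 / 2`. Every individual has only
finitely many children up to each time. The probability that the first `2 ^ ((n + 4) ^ 2)` waiting
times of an individual have a sum at most `2 ^ (-n)` is at least `2 ^ (-(n + 2) ^ 2 - (n + 1))`, and so
there is a path along which infinitely many individuals are born in finite time.
-/

open MeasureTheory

namespace Pool.Agent.Results.MP_f93fdf_pr.NoStar

open Pool.Agent.V1138.CM

/-- The process is explosive: survival (the tree of the individuals born before the explosion time is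
infinite) has positive probability, and almost surely on survival the explosion time is finite. -/
def Explosive (ν : ℕ → Measure ℝ) : Prop :=
  0 < cmjLaw ν {x | (treeAtExplosion x).Infinite} ∧
    ∀ᵐ x ∂(cmjLaw ν), (treeAtExplosion x).Infinite → explosionTime x < ⊤

/-- **There are laws `ν j` of positive independent waiting times such that the process is explosive
and almost surely survives, and almost surely all the individuals in the tree at the explosion time
have finitely many children in this tree.** -/
theorem result : ∃ ν : ℕ → Measure ℝ, (∀ j, IsProbabilityMeasure (ν j)) ∧
    (∀ j, ∀ᵐ t ∂(ν j), 0 < t) ∧ Explosive ν ∧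
    (∀ᵐ x ∂(cmjLaw ν), (treeAtExplosion x).Infinite) ∧
    ∀ᵐ x ∂(cmjLaw ν), ∀ u ∈ treeAtExplosion x, {i | i :: u ∈ treeAtExplosion x}.Finite := by
  refine ⟨nu, fun j => inferInstance, nu_pos, ⟨?_, ?_⟩, ?_, ?_⟩
  · have h : ∀ᵐ x ∂(cmjLaw nu), x ∈ {x | (treeAtExplosion x).Infinite} := by
      filter_upwards [example_ae] with x hx
      exact hx.1
    have h1 : cmjLaw nu {x | (treeAtExplosion x).Infinite} = cmjLaw nu Set.univ :=
      measure_congr (Filter.eventuallyEq_univ.2 h)
    rw [h1, measure_univ]
    exact one_pos
  · filter_upwards [example_ae] with x hx _
    exact hx.2.1
  · filter_upwards [example_ae] with x hx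
    exact hx.1
  · filter_upwards [example_ae] with x hx u _
    exact hx.2.2 u

end Pool.Agent.Results.MP_f93fdf_pr.NoStar
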